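import Mathlib

/-!
# A star-shaped Lipschitz domain that is not the limit shape of any weighted Eden model

For `f(z) = |z|^α f₀(z/|z|)` with `α < 1` the function `D(0,·)` is homogeneous of degree `1 - α` and
locally Lipschitz away from the origin, so the boundary of `𝔹 = {D(0,·) ≤ 1}` cannot be tangent to
a ray from the origin.  The set `K = {q : k(|q'|) ≤ ⟨ν,q⟩ ≤ 3 - |q'|}` with `k(x) = (x-1)|x-1|` and
`q' = q - ⟨ν,q⟩ν` has Lipschitz boundary and its boundary meets every ray exactly once, but it is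
tangent to the rays `{r e : r ≥ 0}`, `e ⊥ ν`, at the points `e`, `|e| = 1`.
-/

set_option autoImplicit false

open MeasureTheory Filter Topology Set
open scoped ENNReal NNReal RealInnerProductSpace

namespace Pool.Agent.Results.MP_41ff67_pr.TangentRay

/-- `ℝ^d` with the Euclidean norm. -/
abbrev E (d : ℕ) := EuclideanSpace ℝ (Fin d)

/-- The weight function `f(z) = |z|^α f₀(z/|z|)`, `z ≠ 0` (the value at `0` plays no role). -/
noncomputable def weight {d : ℕ} (α : ℝ) (f₀ : E d → ℝ) (z : E d) : ℝ :=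
  ‖z‖ ^ α * f₀ (‖z‖⁻¹ • z)

/-- `∫ dt / f(γ(t))` for the straight path `γ` from `p` to `q` parametrised by `μ`-length: the
path has `μ`-length `μ (q - p)`, so the integral is `μ (q - p) ∫₀¹ ds / f((1 - s) p + s q)`. -/
noncomputable def segLen {d : ℕ} (μ : Seminorm ℝ (E d)) (f : E d → ℝ) (p q : E d) : ℝ≥0∞ :=
  ENNReal.ofReal (μ (q - p)) *
    ∫⁻ s in Icc (0 : ℝ) 1, ENNReal.ofReal (1 / f ((1 - s) • p + s • q))

/-- `∫ dt / f(γ(t))` for the piecewise linear path with the given list of vertices. -/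
noncomputable def pathLen {d : ℕ} (μ : Seminorm ℝ (E d)) (f : E d → ℝ) : List (E d) → ℝ≥0∞
  | [] => 0
  | [_] => 0
  | p :: q :: l => segLen μ f p q + pathLen μ f (q :: l)

/-- `D(z,w)`: infimum over the piecewise linear paths from `z` to `w`. -/
noncomputable def D {d : ℕ} (μ : Seminorm ℝ (E d)) (f : E d → ℝ) (z w : E d) : ℝ≥0∞ :=
  ⨅ l : List (E d), pathLen μ f (z :: (l ++ [w]))

/-- The closed unit ball `𝔹 = {z : D(0,z) ≤ 1}`. -/
noncomputable def ballD {d : ℕ} (μ : Seminorm ℝ (E d)) (f : E d → ℝ) : Set (E d) :=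
  {z | D μ f 0 z ≤ 1}

/-- `K` is locally at `p`, after a rotation, the region on one side of a Lipschitz graph: for some
unit vector `e` and some Lipschitz function `g` of the component `q - ⟨e,q⟩ e` of `q` orthogonal to
`e`, near `p` a point `q` is in `K` iff `g (q - ⟨e,q⟩ e) ≤ ⟨e,q⟩`. -/
def LipAt {d : ℕ} (K : Set (E d)) (p : E d) : Prop :=
  ∃ (e : E d) (g : E d → ℝ) (L : ℝ≥0), ‖e‖ = 1 ∧ LipschitzWith L g ∧
    ∀ᶠ q in 𝓝 p, (q ∈ K ↔ g (q - ⟪e, q⟫ • e) ≤ ⟪e, q⟫)

/-- `K` has Lipschitz boundary. -/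
def HasLipschitzBoundary {d : ℕ} (K : Set (E d)) : Prop := ∀ p ∈ frontier K, LipAt K p

/-- The boundary of `K` meets the ray from `0` in the direction `u` in exactly one point. -/
def MeetsOnce {d : ℕ} (K : Set (E d)) (u : E d) : Prop :=
  ∃! p, p ∈ frontier K ∧ ∃ r : ℝ, 0 ≤ r ∧ p = r • u

/-- The sets of the question. -/
def Admissible {d : ℕ} (K : Set (E d)) : Prop :=
  IsCompact K ∧ HasLipschitzBoundary K ∧ K ∈ 𝓝 0 ∧ ∀ u : E d, u ≠ 0 → MeetsOnce K u

/-- `f₀` is strictly positive and Lipschitz on the unit sphere. -/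
def Angular {d : ℕ} (f₀ : E d → ℝ) : Prop :=
  (∃ L : ℝ≥0, LipschitzOnWith L f₀ (Metric.sphere 0 1)) ∧ ∀ u : E d, ‖u‖ = 1 → 0 < f₀ u

section metric

variable {d : ℕ} {μ : Seminorm ℝ (E d)} {α : ℝ} {f₀ : E d → ℝ}

lemma weight_smul {r : ℝ} (hr : 0 < r) (z : E d) :
    weight α f₀ (r • z) = r ^ α * weight α f₀ z := by
  unfold weight
  rw [norm_smul, Real.norm_of_nonneg hr.le, Real.mul_rpow hr.le (norm_nonneg _), mul_inv,
    smul_smul, show r⁻¹ * ‖z‖⁻¹ * r = ‖z‖⁻¹ by field_simp, mul_assoc]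

lemma segLen_smul {r : ℝ} (hr : 0 < r) (p q : E d) :
    segLen μ (weight α f₀) (r • p) (r • q) =
      ENNReal.ofReal (r ^ (1 - α)) * segLen μ (weight α f₀) p q := by
  unfold segLen
  have h1 : ∀ s : ℝ, (1 - s) • r • p + s • r • q = r • ((1 - s) • p + s • q) := by
    intro s
    rw [smul_add, smul_comm, smul_comm s r]
  have h2 : ∀ s : ℝ, ENNReal.ofReal (1 / weight α f₀ ((1 - s) • r • p + s • r • q)) =
      ENNReal.ofReal (r ^ (-α)) * ENNReal.ofReal (1 / weight α f₀ ((1 - s) • p + s • q)) := by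
    intro s
    rw [h1, weight_smul hr, ← ENNReal.ofReal_mul (Real.rpow_nonneg hr.le _), Real.rpow_neg hr.le]
    congr 1
    rw [one_div, one_div, mul_inv]
  simp_rw [h2]
  rw [lintegral_const_mul' _ _ ENNReal.ofReal_ne_top, ← smul_sub, map_smul_eq_mul,
    Real.norm_of_nonneg hr.le, ENNReal.ofReal_mul hr.le, ← mul_assoc, ← mul_assoc]
  congr 1
  rw [mul_right_comm, ← ENNReal.ofReal_mul hr.le]
  congr 2
  rw [show (1 : ℝ) - α = 1 + (-α) by ring, Real.rpow_add hr, Real.rpow_one]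

lemma pathLen_smul {r : ℝ} (hr : 0 < r) : ∀ l : List (E d),
    pathLen μ (weight α f₀) (l.map (r • ·)) =
      ENNReal.ofReal (r ^ (1 - α)) * pathLen μ (weight α f₀) l
  | [] => by simp [pathLen]
  | [_] => by simp [pathLen]
  | p :: q :: l => by
    have ih := pathLen_smul hr (q :: l)
    simp only [List.map_cons, pathLen] at ih ⊢
    rw [ih, segLen_smul hr, mul_add]

lemma D_smul_le {r : ℝ} (hr : 0 < r) (z : E d) :
    D μ (weight α f₀) 0 (r • z) ≤ ENNReal.ofReal (r ^ (1 - α)) * D μ (weight α f₀) 0 z := by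
  unfold D
  rw [ENNReal.mul_iInf_of_ne (by simpa using Real.rpow_pos_of_pos hr _) ENNReal.ofReal_ne_top]
  refine le_iInf fun l => ?_
  refine (iInf_le _ (l.map (r • ·))).trans ?_
  rw [← pathLen_smul hr]
  simp

lemma le_D_smul {r : ℝ} (hr : 0 < r) (z : E d) :
    ENNReal.ofReal (r ^ (1 - α)) * D μ (weight α f₀) 0 z ≤ D μ (weight α f₀) 0 (r • z) := by
  have h := D_smul_le (μ := μ) (α := α) (f₀ := f₀) (inv_pos.2 hr) (r • z)
  rw [smul_smul, inv_mul_cancel₀ hr.ne', one_smul] at h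
  calc _ ≤ ENNReal.ofReal (r ^ (1 - α)) *
        (ENNReal.ofReal (r⁻¹ ^ (1 - α)) * D μ (weight α f₀) 0 (r • z)) := by gcongr
    _ = D μ (weight α f₀) 0 (r • z) := by
      rw [← mul_assoc, ← ENNReal.ofReal_mul (Real.rpow_nonneg hr.le _), ← Real.mul_rpow hr.le
        (inv_nonneg.2 hr.le), mul_inv_cancel₀ hr.ne', Real.one_rpow, ENNReal.ofReal_one, one_mul]

lemma pathLen_snoc (f : E d → ℝ) (p q : E d) : ∀ (a : E d) (l : List (E d)),
    pathLen μ f (a :: ((l ++ [p]) ++ [q])) = pathLen μ f (a :: (l ++ [p])) + segLen μ f p q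
  | a, [] => by simp [pathLen]
  | a, b :: l => by
    have ih := pathLen_snoc f p q b l
    simp only [List.cons_append, pathLen] at ih ⊢
    rw [ih, add_assoc]

lemma D_triangle (f : E d → ℝ) (z w : E d) : D μ f 0 w ≤ D μ f 0 z + segLen μ f z w := by
  unfold D
  rw [ENNReal.iInf_add]
  refine le_iInf fun l => ?_
  refine (iInf_le _ (l ++ [z])).trans ?_
  rw [pathLen_snoc]

/-- The D-length of a short segment orthogonal to the ray. -/
lemma seg_bound (e ν : E d) (he : ‖e‖ = 1) (hν : ‖ν‖ = 1) (hev : ⟪e, ν⟫ = 0)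
    (hf : ContinuousOn f₀ (Metric.sphere 0 1)) (hpos : ∀ u ∈ Metric.sphere (0 : E d) 1, 0 < f₀ u) :
    ∃ C : ℝ, 0 ≤ C ∧ ∀ h : ℝ, 0 < h → h ≤ 1 / 2 →
      segLen μ (weight α f₀) ((1 + h) • e + (h ^ 2) • ν) ((1 + h) • e) ≤
        ENNReal.ofReal (C * h ^ 2) := by
  obtain ⟨u₀, hu₀, hmin⟩ := (isCompact_sphere (0 : E d) 1).exists_isMinOn
    ⟨e, by simpa using he⟩ hf
  have hc := hpos u₀ hu₀
  set c := f₀ u₀ with hcdef
  set m := min (1 : ℝ) (2 ^ α) with hm
  have hm0 : 0 < m := lt_min one_pos (Real.rpow_pos_of_pos two_pos _)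
  refine ⟨μ ν * (1 / (m * c)), by positivity, fun h h0 h1 => ?_⟩
  have hw : ∀ s ∈ Icc (0 : ℝ) 1, 1 / weight α f₀
      ((1 - s) • ((1 + h) • e + (h ^ 2) • ν) + s • ((1 + h) • e)) ≤ 1 / (m * c) := by
    intro s hs
    have hz : (1 - s) • ((1 + h) • e + (h ^ 2) • ν) + s • ((1 + h) • e) =
        (1 + h) • e + ((1 - s) * h ^ 2) • ν := by
      module
    rw [hz]
    set z := (1 + h) • e + ((1 - s) * h ^ 2) • ν with hzdef
    have hz1 : 1 ≤ ‖z‖ := by
      have h3 : ⟪e, z⟫ = 1 + h := by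
        rw [hzdef, inner_add_right, inner_smul_right, inner_smul_right, hev,
          real_inner_self_eq_norm_sq, he]
        ring
      have h4 := real_inner_le_norm e z
      rw [h3, he, one_mul] at h4
      linarith
    have hz2 : ‖z‖ ≤ 2 := by
      have h3 := norm_add_le ((1 + h) • e) (((1 - s) * h ^ 2) • ν)
      rw [norm_smul, norm_smul, he, hν, mul_one, mul_one, Real.norm_eq_abs, Real.norm_eq_abs,
        abs_of_pos (by linarith), abs_of_nonneg (mul_nonneg (by linarith [hs.2]) (sq_nonneg h))]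
        at h3
      have h4 : (1 - s) * h ^ 2 ≤ 1 * (1 / 2) ^ 2 :=
        mul_le_mul (by linarith [hs.1]) (pow_le_pow_left₀ h0.le h1 2) (sq_nonneg h) zero_le_one
      linarith
    have hz0 : 0 < ‖z‖ := by linarith
    have hu : ‖z‖⁻¹ • z ∈ Metric.sphere (0 : E d) 1 := by
      rw [mem_sphere_zero_iff_norm, norm_smul, norm_inv, norm_norm, inv_mul_cancel₀ hz0.ne']
    have h5 : c ≤ f₀ (‖z‖⁻¹ • z) := hmin hu
    have h6 : m ≤ ‖z‖ ^ α := by
      rcases le_total 0 α with ha | ha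
      · exact (min_le_left _ _).trans (Real.one_le_rpow hz1 ha)
      · exact (min_le_right _ _).trans (Real.rpow_le_rpow_of_nonpos hz0 hz2 ha)
    apply one_div_le_one_div_of_le (mul_pos hm0 hc)
    exact mul_le_mul h6 h5 hc.le (Real.rpow_nonneg hz0.le _)
  unfold segLen
  have h7 : ∫⁻ s in Icc (0 : ℝ) 1, ENNReal.ofReal (1 / weight α f₀
      ((1 - s) • ((1 + h) • e + (h ^ 2) • ν) + s • ((1 + h) • e))) ≤
      ENNReal.ofReal (1 / (m * c)) := by
    calc _ ≤ ∫⁻ s in Icc (0 : ℝ) 1, ENNReal.ofReal (1 / (m * c)) := by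
          apply setLIntegral_mono' measurableSet_Icc
          intro s hs
          exact ENNReal.ofReal_le_ofReal (hw s hs)
      _ = ENNReal.ofReal (1 / (m * c)) := by simp
  have h8 : μ ((1 + h) • e - ((1 + h) • e + (h ^ 2) • ν)) = h ^ 2 * μ ν := by
    rw [show (1 + h) • e - ((1 + h) • e + (h ^ 2) • ν) = (-(h ^ 2)) • ν by module,
      map_smul_eq_mul, norm_neg, Real.norm_of_nonneg (sq_nonneg h)]
  rw [h8]
  calc _ ≤ ENNReal.ofReal (h ^ 2 * μ ν) * ENNReal.ofReal (1 / (m * c)) := by gcongr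
    _ = _ := by
      rw [← ENNReal.ofReal_mul (by positivity)]
      congr 1
      ring

/-- Nothing tangent to a ray is a `D`-ball. -/
theorem no_tangent (e ν : E d) (he : ‖e‖ = 1) (hν : ‖ν‖ = 1) (hev : ⟪e, ν⟫ = 0) (hα : α < 1)
    (hf : ContinuousOn f₀ (Metric.sphere 0 1)) (hpos : ∀ u ∈ Metric.sphere (0 : E d) 1, 0 < f₀ u)
    (hout : ∀ h : ℝ, 0 < h → h ≤ 1 / 2 → (1 + h) • e ∉ ballD μ (weight α f₀))
    (hin : ∀ h : ℝ, 0 < h → h ≤ 1 / 2 → (1 + h) • e + (h ^ 2) • ν ∈ ballD μ (weight α f₀)) :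
    False := by
  obtain ⟨C, hC, hseg⟩ := seg_bound (μ := μ) (α := α) e ν he hν hev hf hpos
  have hβ : 0 < 1 - α := by linarith
  have hDe : 1 ≤ D μ (weight α f₀) 0 e := by
    have hlim : Tendsto (fun h : ℝ => ENNReal.ofReal ((1 + h) ^ (1 - α)) *
        D μ (weight α f₀) 0 e) (𝓝[>] 0) (𝓝 (ENNReal.ofReal ((1 + 0) ^ (1 - α)) *
        D μ (weight α f₀) 0 e)) := by
      apply ENNReal.Tendsto.mul_const _ (Or.inl (by simp))
      apply (ENNReal.continuous_ofReal.tendsto _).comp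
      apply Tendsto.mono_left _ nhdsWithin_le_nhds
      have : ContinuousAt (fun h : ℝ => (1 + h) ^ (1 - α)) 0 := by
        apply ContinuousAt.rpow_const (by fun_prop) (Or.inr hβ.le)
      exact this
    rw [add_zero, Real.one_rpow, ENNReal.ofReal_one, one_mul] at hlim
    refine ge_of_tendsto hlim ?_
    filter_upwards [Ioo_mem_nhdsGT (show (0 : ℝ) < 1 / 2 by norm_num)] with h hh
    have h1 := hout h hh.1 hh.2.le
    have h2 : 1 < D μ (weight α f₀) 0 ((1 + h) • e) := not_le.1 h1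
    exact h2.le.trans (D_smul_le (by linarith [hh.1]) e)
  have key : ∀ h : ℝ, 0 < h → h ≤ 1 / 2 → (1 + h) ^ (1 - α) ≤ 1 + C * h ^ 2 := by
    intro h h0 h1
    have h2 : ENNReal.ofReal ((1 + h) ^ (1 - α)) ≤ ENNReal.ofReal (1 + C * h ^ 2) := by
      calc ENNReal.ofReal ((1 + h) ^ (1 - α))
          ≤ ENNReal.ofReal ((1 + h) ^ (1 - α)) * D μ (weight α f₀) 0 e := by
            conv_lhs => rw [← mul_one (ENNReal.ofReal _)]
            gcongr
        _ ≤ D μ (weight α f₀) 0 ((1 + h) • e) := le_D_smul (by linarith) e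
        _ ≤ D μ (weight α f₀) 0 ((1 + h) • e + (h ^ 2) • ν) +
            segLen μ (weight α f₀) ((1 + h) • e + (h ^ 2) • ν) ((1 + h) • e) :=
            D_triangle _ _ _
        _ ≤ 1 + ENNReal.ofReal (C * h ^ 2) := add_le_add (hin h h0 h1) (hseg h h0 h1)
        _ = ENNReal.ofReal (1 + C * h ^ 2) := by
            rw [ENNReal.ofReal_add zero_le_one (by positivity), ENNReal.ofReal_one]
    exact (ENNReal.ofReal_le_ofReal_iff (by positivity)).1 h2
  set h := min (1 / 2) ((1 - α) / (4 * (C + 1))) with hh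
  have h0 : 0 < h := lt_min (by norm_num) (by positivity)
  have h1 : h ≤ 1 / 2 := min_le_left _ _
  have h2 : h ≤ (1 - α) / (4 * (C + 1)) := min_le_right _ _
  have h3 := key h h0 h1
  have h4 : 1 + (1 - α) * Real.log (1 + h) ≤ (1 + h) ^ (1 - α) := by
    rw [Real.rpow_def_of_pos (by linarith), add_comm, mul_comm (1 - α)]
    exact Real.add_one_le_exp _
  have h5 : h / 2 ≤ Real.log (1 + h) := by
    have h6 := Real.one_sub_inv_le_log_of_pos (show 0 < 1 + h by linarith)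
    have h7 : h / 2 ≤ 1 - (1 + h)⁻¹ := by
      rw [show 1 - (1 + h)⁻¹ = h / (1 + h) by field_simp; ring]
      apply div_le_div_of_nonneg_left h0.le (by linarith) (by linarith)
    linarith
  have h6 : (1 - α) * (h / 2) ≤ C * h ^ 2 := by
    have := mul_le_mul_of_nonneg_left h5 hβ.le
    linarith
  have h7 : (1 - α) / 2 ≤ C * h := by
    have : (1 - α) / 2 * h ≤ C * h * h := by nlinarith
    exact le_of_mul_le_mul_right this h0
  have h8 : C * h ≤ (1 - α) / 4 := by
    have h9 : h * (4 * (C + 1)) ≤ 1 - α := by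
      rwa [le_div_iff₀ (by positivity)] at h2
    nlinarith
  linarith

end metric

section criterion

variable {d : ℕ}

/-- A criterion for being locally the region above a Lipschitz graph. -/
lemma lip_graph {K : Set (E d)} {F : E d → ℝ} {p e : E d} (he : ‖e‖ = 1) {r c : ℝ} {L : ℝ≥0}
    (hr : 0 < r) (hc : 0 < c) (hp : F p = 0) (hL : LipschitzOnWith L F (Metric.ball p r))
    (hmono : ∀ (q : E d) (t : ℝ), q ∈ Metric.ball p r → q + t • e ∈ Metric.ball p r → 0 ≤ t →
      F q + c * t ≤ F (q + t • e))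
    (hK : ∀ q ∈ Metric.ball p r, (q ∈ K ↔ 0 ≤ F q)) :
    LipAt K p := by
  suffices hsuff : ∃ (g : (ℝ ∙ e)ᗮ → ℝ) (L : ℝ≥0), LipschitzWith L g ∧
      ∀ᶠ q in 𝓝 p, (q ∈ K ↔ g ((ℝ ∙ e)ᗮ.orthogonalProjectionOnto q) ≤ ⟪e, q⟫) by
    obtain ⟨g, L', hg, hev⟩ := hsuff
    have hpl : LipschitzWith 1 (fun q : E d => (ℝ ∙ e)ᗮ.orthogonalProjectionOnto q) := by
      apply LipschitzWith.of_dist_le_mul
      intro x y
      rw [NNReal.coe_one, one_mul, dist_eq_norm, dist_eq_norm, ← map_sub]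
      exact (ℝ ∙ e)ᗮ.norm_orthogonalProjectionOnto_apply_le _
    refine ⟨e, fun q => g ((ℝ ∙ e)ᗮ.orthogonalProjectionOnto q), L' * 1, he, hg.comp hpl, ?_⟩
    filter_upwards [hev] with q hq
    rw [hq]
    have h1 : (ℝ ∙ e)ᗮ.orthogonalProjectionOnto (q - ⟪e, q⟫ • e) =
        (ℝ ∙ e)ᗮ.orthogonalProjectionOnto q := by
      rw [map_sub, map_smul]
      have : (ℝ ∙ e)ᗮ.orthogonalProjectionOnto e = 0 :=
        Submodule.orthogonalProjectionOnto_orthogonal_apply_eq_zero
          (Submodule.mem_span_singleton_self e)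
      rw [this, smul_zero, sub_zero]
    rw [h1]
  set pr : E d → (ℝ ∙ e)ᗮ := fun q => (ℝ ∙ e)ᗮ.orthogonalProjectionOnto q with hpr
  have hdec : ∀ q : E d, q = (pr q : E d) + ⟪e, q⟫ • e := by
    intro q
    have h1 := Submodule.starProjection_add_starProjection_orthogonal (K := (ℝ ∙ e)) q
    have h2 : (ℝ ∙ e).starProjection q = ⟪e, q⟫ • e :=
      Submodule.starProjection_unit_singleton ℝ he q
    rw [h2] at h1
    rw [add_comm] at h1
    exact h1.symm
  set t0 := ⟪e, p⟫ with ht0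
  set δ := min (r / 4) (c * r / (8 * (L + 1))) with hδ
  have hδ0 : 0 < δ := lt_min (by linarith) (by positivity)
  have hδ1 : δ ≤ r / 4 := min_le_left _ _
  have hδ2 : L * δ ≤ c * r / 8 := by
    have h1 : δ ≤ c * r / (8 * (L + 1)) := min_le_right _ _
    rw [le_div_iff₀ (by positivity)] at h1
    have h2 : (0 : ℝ) ≤ L := L.2
    nlinarith
  -- points near the axis are in the ball
  have hball : ∀ (x : (ℝ ∙ e)ᗮ) (t : ℝ), ‖x - pr p‖ ≤ δ → |t - t0| ≤ r / 2 →
      (x : E d) + t • e ∈ Metric.ball p r := by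
    intro x t hx ht
    rw [mem_ball_iff_norm]
    have h1 : (x : E d) + t • e - p = ((x - pr p : (ℝ ∙ e)ᗮ) : E d) + (t - t0) • e := by
      conv_lhs => rw [hdec p]
      rw [Submodule.coe_sub]
      module
    rw [h1]
    have h2 := norm_add_le ((x - pr p : (ℝ ∙ e)ᗮ) : E d) ((t - t0) • e)
    have h3 : ‖((x - pr p : (ℝ ∙ e)ᗮ) : E d)‖ = ‖x - pr p‖ := rfl
    rw [norm_smul, he, mul_one, Real.norm_eq_abs, h3] at h2
    linarith
  have hlip : ∀ (x y : (ℝ ∙ e)ᗮ) (t : ℝ), ‖x - pr p‖ ≤ δ → ‖y - pr p‖ ≤ δ → |t - t0| ≤ r / 2 →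
      |F ((x : E d) + t • e) - F ((y : E d) + t • e)| ≤ L * ‖x - y‖ := by
    intro x y t hx hy ht
    have h1 := hL.dist_le_mul _ (hball x t hx ht) _ (hball y t hy ht)
    rw [Real.dist_eq, dist_eq_norm] at h1
    have h2 : (x : E d) + t • e - ((y : E d) + t • e) = ((x - y : (ℝ ∙ e)ᗮ) : E d) := by
      rw [Submodule.coe_sub]; abel
    rw [h2] at h1
    exact h1
  have hFp : F ((pr p : E d) + t0 • e) = 0 := by rw [← hdec p, hp]
  have hmono' : ∀ (x : (ℝ ∙ e)ᗮ) (s t : ℝ), ‖x - pr p‖ ≤ δ → |s - t0| ≤ r / 2 →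
      |t - t0| ≤ r / 2 → s ≤ t →
      F ((x : E d) + s • e) + c * (t - s) ≤ F ((x : E d) + t • e) := by
    intro x s t hx hs ht hst
    have h1 : (x : E d) + t • e = ((x : E d) + s • e) + (t - s) • e := by module
    have h2 := hmono ((x : E d) + s • e) (t - s) (hball x s hx hs)
      (by rw [← h1]; exact hball x t hx ht) (by linarith)
    rwa [← h1] at h2
  have hp0 : ‖pr p - pr p‖ ≤ δ := by simp [hδ0.le]
  have hr2 : |t0 + r / 2 - t0| ≤ r / 2 := by
    rw [show t0 + r / 2 - t0 = r / 2 by ring, abs_of_pos (by linarith)]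
  have hr3 : |t0 - r / 2 - t0| ≤ r / 2 := by
    rw [show t0 - r / 2 - t0 = -(r / 2) by ring, abs_neg, abs_of_pos (by linarith)]
  have hr4 : |t0 - t0| ≤ r / 2 := by
    rw [sub_self, abs_zero]; linarith
  -- existence of the zero
  have hex : ∀ x : (ℝ ∙ e)ᗮ, ‖x - pr p‖ ≤ δ → ∃ t : ℝ, |t - t0| ≤ r / 2 ∧
      F ((x : E d) + t • e) = 0 := by
    intro x hx
    have h1 : 0 ≤ F ((x : E d) + (t0 + r / 2) • e) := by
      have a1 := hmono' (pr p) t0 (t0 + r / 2) hp0 hr4 hr2 (by linarith)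
      have a2 := hlip x (pr p) (t0 + r / 2) hx hp0 hr2
      have a3 := abs_le.1 a2
      have a4 : (L : ℝ) * ‖x - pr p‖ ≤ L * δ := mul_le_mul_of_nonneg_left hx L.2
      rw [hFp] at a1
      have a5 : 0 < c * r := mul_pos hc hr
      nlinarith
    have h2 : F ((x : E d) + (t0 - r / 2) • e) ≤ 0 := by
      have a1 := hmono' (pr p) (t0 - r / 2) t0 hp0 hr3 hr4 (by linarith)
      have a2 := hlip x (pr p) (t0 - r / 2) hx hp0 hr3
      have a3 := abs_le.1 a2
      have a4 : (L : ℝ) * ‖x - pr p‖ ≤ L * δ := mul_le_mul_of_nonneg_left hx L.2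
      rw [hFp] at a1
      have a5 : 0 < c * r := mul_pos hc hr
      nlinarith
    have hcont : ContinuousOn (fun t : ℝ => F ((x : E d) + t • e))
        (Icc (t0 - r / 2) (t0 + r / 2)) := by
      apply hL.continuousOn.comp (by fun_prop)
      intro t ht
      exact hball x t hx (abs_le.2 ⟨by linarith [ht.1], by linarith [ht.2]⟩)
    obtain ⟨t, ht, ht2⟩ := intermediate_value_Icc (by linarith) hcont ⟨h2, h1⟩
    exact ⟨t, abs_le.2 ⟨by linarith [ht.1], by linarith [ht.2]⟩, ht2⟩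
  classical
  set g : (ℝ ∙ e)ᗮ → ℝ := fun x => if h : ‖x - pr p‖ ≤ δ then (hex x h).choose else 0 with hg
  have hg1 : ∀ x : (ℝ ∙ e)ᗮ, ‖x - pr p‖ ≤ δ → |g x - t0| ≤ r / 2 ∧
      F ((x : E d) + g x • e) = 0 := by
    intro x hx
    have := (hex x hx).choose_spec
    simp only [hg, dif_pos hx]
    exact this
  obtain ⟨cN, hcN⟩ : ∃ cN : ℝ≥0, (cN : ℝ) = c := ⟨Real.toNNReal c, Real.coe_toNNReal c hc.le⟩
  have hgL : LipschitzOnWith (L / cN) g (Metric.closedBall (pr p) δ) := by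
    apply LipschitzOnWith.of_dist_le_mul
    intro x hx y hy
    rw [mem_closedBall_iff_norm] at hx hy
    obtain ⟨x1, x2⟩ := hg1 x hx
    obtain ⟨y1, y2⟩ := hg1 y hy
    have a1 := hlip x y (g x) hx hy x1
    have a2 := hlip x y (g y) hx hy y1
    rw [x2, zero_sub, abs_neg] at a1
    rw [y2, sub_zero] at a2
    rw [Real.dist_eq, dist_eq_norm, NNReal.coe_div, hcN, div_mul_eq_mul_div,
      le_div_iff₀ hc]
    rcases le_total (g x) (g y) with h | h
    · have a3 := hmono' x (g x) (g y) hx x1 y1 h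
      rw [x2] at a3
      rw [abs_of_nonpos (by linarith)]
      have := le_abs_self (F ((x : E d) + g y • e))
      nlinarith
    · have a3 := hmono' y (g y) (g x) hy y1 x1 h
      rw [y2] at a3
      rw [abs_of_nonneg (by linarith)]
      have := le_abs_self (F ((y : E d) + g x • e))
      nlinarith
  obtain ⟨g', hg', hgg⟩ := hgL.extend_real
  refine ⟨g', _, hg', ?_⟩
  have hcont : Continuous pr := (ℝ ∙ e)ᗮ.orthogonalProjectionOnto.continuous
  have ev1 : ∀ᶠ q in 𝓝 p, ‖pr q - pr p‖ < δ := by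
    have : Tendsto (fun q => ‖pr q - pr p‖) (𝓝 p) (𝓝 ‖pr p - pr p‖) :=
      ((hcont.tendsto p).sub tendsto_const_nhds).norm
    rw [sub_self, norm_zero] at this
    exact this.eventually_lt_const hδ0
  have ev2 : ∀ᶠ q in 𝓝 p, |⟪e, q⟫ - t0| < r / 2 := by
    have : Tendsto (fun q => |⟪e, q⟫ - t0|) (𝓝 p) (𝓝 |⟪e, p⟫ - t0|) := by
      apply Continuous.tendsto
      fun_prop
    rw [← ht0, sub_self, abs_zero] at this
    exact this.eventually_lt_const (by linarith)
  filter_upwards [ev1, ev2] with q h1 h2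
  have hq : q = (pr q : E d) + ⟪e, q⟫ • e := hdec q
  have hqb : q ∈ Metric.ball p r := by
    rw [hq]; exact hball _ _ h1.le h2.le
  have hgq := hgg (show pr q ∈ Metric.closedBall (pr p) δ by
    rw [mem_closedBall_iff_norm]; exact h1.le)
  rw [hK q hqb]
  obtain ⟨x1, x2⟩ := hg1 (pr q) h1.le
  change 0 ≤ F q ↔ g' (pr q) ≤ ⟪e, q⟫
  rw [← hgq]
  constructor
  · intro h3
    by_contra h4
    push Not at h4
    have a3 := hmono' (pr q) ⟪e, q⟫ (g (pr q)) h1.le h2.le x1 h4.le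
    rw [x2, ← hq] at a3
    have : 0 < c * (g (pr q) - ⟪e, q⟫) := mul_pos hc (by linarith)
    linarith
  · intro h3
    have a3 := hmono' (pr q) (g (pr q)) ⟪e, q⟫ h1.le x1 h2.le h3
    rw [x2, ← hq] at a3
    have : 0 ≤ c * (⟪e, q⟫ - g (pr q)) := mul_nonneg hc.le (by linarith)
    linarith

end criterion

section shape

variable {d : ℕ}

/-- the profile of the lower surface -/
noncomputable def kk (x : ℝ) : ℝ := (x - 1) * |x - 1|

/-- component orthogonal to `ν` -/
noncomputable def perp (ν q : E d) : E d := q - ⟪ν, q⟫ • ν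

/-- height above the lower surface -/
noncomputable def F1 (ν q : E d) : ℝ := ⟪ν, q⟫ - kk ‖perp ν q‖

/-- height below the upper surface -/
noncomputable def F2 (ν q : E d) : ℝ := 3 - ‖perp ν q‖ - ⟪ν, q⟫

/-- The counterexample. -/
def KK (ν : E d) : Set (E d) := {q | 0 ≤ F1 ν q ∧ 0 ≤ F2 ν q}

lemma kk_lip (a b : ℝ) : |kk a - kk b| ≤ (|a - 1| + |b - 1|) * |a - b| := by
  unfold kk
  rcases abs_cases (a - 1) with ⟨h1, h2⟩ | ⟨h1, h2⟩ <;>
  rcases abs_cases (b - 1) with ⟨h3, h4⟩ | ⟨h3, h4⟩ <;>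
  rcases abs_cases (a - b) with ⟨h5, h6⟩ | ⟨h5, h6⟩ <;>
  rw [h1, h3, h5, abs_le] <;> constructor <;> nlinarith

lemma kk_mono {a b : ℝ} (h : a ≤ b) : kk a ≤ kk b := by
  unfold kk
  rcases abs_cases (a - 1) with ⟨h1, h2⟩ | ⟨h1, h2⟩ <;>
  rcases abs_cases (b - 1) with ⟨h3, h4⟩ | ⟨h3, h4⟩ <;>
  rw [h1, h3] <;> nlinarith

lemma kk_ge {a : ℝ} (ha : 0 ≤ a) : -1 ≤ kk a := by
  have := kk_mono ha
  have h0 : kk 0 = -1 := by unfold kk; norm_num
  linarith

lemma kk_star {a s : ℝ} (ha : 0 ≤ a) (hs : 0 ≤ s) (hs1 : s < 1) : kk (s * a) < s * kk a := by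
  unfold kk
  have hsa : 0 ≤ s * a := mul_nonneg hs ha
  rcases le_total a 1 with h | h
  · have h1 : s * a ≤ 1 := by nlinarith
    rw [abs_of_nonpos (by linarith), abs_of_nonpos (by linarith)]
    have h2 : 0 < (1 - s) * (1 - s * a ^ 2) := by
      apply mul_pos (by linarith)
      have : a ^ 2 ≤ 1 := by nlinarith
      nlinarith
    nlinarith
  · rcases le_total (s * a) 1 with h1 | h1
    · rw [abs_of_nonpos (a := s * a - 1) (by linarith), abs_of_nonneg (by linarith)]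
      rcases hs.eq_or_lt with h2 | h2
      · rw [← h2]; norm_num
      · rcases h.eq_or_lt with h3 | h3
        · rw [← h3]
          have : s * 1 - 1 < 0 := by linarith
          nlinarith [mul_pos_of_neg_of_neg this this]
        · have : 0 < s * ((a - 1) * (a - 1)) := by
            apply mul_pos h2 (mul_pos (by linarith) (by linarith))
          nlinarith [mul_self_nonneg (s * a - 1)]
    · rw [abs_of_nonneg (by linarith), abs_of_nonneg (by linarith)]
      have h3 : 0 < (1 - s) * (s * a ^ 2 - 1) := by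
        apply mul_pos (by linarith)
        have h4 : 1 < a := by
          rcases h.eq_or_lt with h5 | h5
          · rw [← h5] at h1; linarith
          · exact h5
        nlinarith
      nlinarith

lemma inner_perp (ν q : E d) (hν : ‖ν‖ = 1) : ⟪ν, perp ν q⟫ = 0 := by
  unfold perp
  rw [inner_sub_right, inner_smul_right, real_inner_self_eq_norm_sq, hν]
  ring

lemma norm_perp_le (ν q : E d) (hν : ‖ν‖ = 1) : ‖perp ν q‖ ≤ ‖q‖ := by
  have h1 : ‖q‖ ^ 2 = ‖perp ν q‖ ^ 2 + ⟪ν, q⟫ ^ 2 := by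
    unfold perp
    rw [norm_sub_sq_real, inner_smul_right, norm_smul, hν, real_inner_comm q ν, mul_one,
      Real.norm_eq_abs, sq_abs]
    ring
  have h4 := sq_nonneg ⟪ν, q⟫
  exact le_of_sq_le_sq (by linarith) (norm_nonneg _)

lemma perp_sub (ν q q' : E d) : perp ν q - perp ν q' = perp ν (q - q') := by
  unfold perp
  rw [inner_sub_right]
  module

lemma perp_smul (ν q : E d) (s : ℝ) : perp ν (s • q) = s • perp ν q := by
  unfold perp
  rw [inner_smul_right]
  module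

lemma norm_perp_sub (ν q q' : E d) (hν : ‖ν‖ = 1) :
    |‖perp ν q‖ - ‖perp ν q'‖| ≤ ‖q - q'‖ := by
  refine (abs_norm_sub_norm_le _ _).trans ?_
  rw [perp_sub]
  exact norm_perp_le _ _ hν

lemma inner_lip (ν q q' : E d) (hν : ‖ν‖ = 1) : |⟪ν, q⟫ - ⟪ν, q'⟫| ≤ ‖q - q'‖ := by
  rw [← inner_sub_right]
  have := abs_real_inner_le_norm ν (q - q')
  rwa [hν, one_mul] at this

lemma F2_lip (ν q q' : E d) (hν : ‖ν‖ = 1) : |F2 ν q - F2 ν q'| ≤ 2 * ‖q - q'‖ := by
  have h1 := abs_le.1 (norm_perp_sub ν q q' hν)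
  have h2 := abs_le.1 (inner_lip ν q q' hν)
  unfold F2
  rw [abs_le]
  constructor <;> linarith [h1.1, h1.2, h2.1, h2.2]

lemma F1_lip (ν q q' : E d) (hν : ‖ν‖ = 1) {R : ℝ} (hq : ‖q‖ ≤ R) (hq' : ‖q'‖ ≤ R) :
    |F1 ν q - F1 ν q'| ≤ (2 * R + 3) * ‖q - q'‖ := by
  have h2 := inner_lip ν q q' hν
  have h1 := kk_lip ‖perp ν q‖ ‖perp ν q'‖
  have h3 := norm_perp_sub ν q q' hν
  have h4 : |‖perp ν q‖ - 1| ≤ R + 1 := by
    have := norm_perp_le ν q hν
    have := norm_nonneg (perp ν q)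
    rw [abs_le]; constructor <;> linarith
  have h5 : |‖perp ν q'‖ - 1| ≤ R + 1 := by
    have := norm_perp_le ν q' hν
    have := norm_nonneg (perp ν q')
    rw [abs_le]; constructor <;> linarith
  have h6 : |kk ‖perp ν q‖ - kk ‖perp ν q'‖| ≤ (2 * R + 2) * ‖q - q'‖ := by
    refine h1.trans ?_
    apply mul_le_mul (by linarith) h3 (abs_nonneg _)
    have := abs_nonneg (‖perp ν q‖ - 1)
    linarith
  unfold F1
  have e : ⟪ν, q⟫ - kk ‖perp ν q‖ - (⟪ν, q'⟫ - kk ‖perp ν q'‖) =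
      (⟪ν, q⟫ - ⟪ν, q'⟫) - (kk ‖perp ν q‖ - kk ‖perp ν q'‖) := by ring
  rw [e]
  refine (abs_sub _ _).trans ?_
  linarith

lemma continuous_perp (ν : E d) : Continuous (perp ν) := by
  unfold perp
  fun_prop

lemma continuous_F1 (ν : E d) : Continuous (F1 ν) := by
  have := continuous_perp ν
  unfold F1 kk
  fun_prop

lemma continuous_F2 (ν : E d) : Continuous (F2 ν) := by
  have := continuous_perp ν
  unfold F2
  fun_prop

lemma isClosed_KK (ν : E d) : IsClosed (KK ν) :=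
  (isClosed_le continuous_const (continuous_F1 ν)).inter
    (isClosed_le continuous_const (continuous_F2 ν))

lemma star {ν q : E d} (hq : q ∈ KK ν) {s : ℝ} (hs : 0 ≤ s) (hs1 : s < 1) :
    0 < F1 ν (s • q) ∧ 0 < F2 ν (s • q) := by
  obtain ⟨h1, h2⟩ := hq
  unfold F1 at h1 ⊢
  unfold F2 at h2 ⊢
  rw [perp_smul, inner_smul_right, norm_smul, Real.norm_of_nonneg hs]
  have h3 := kk_star (norm_nonneg (perp ν q)) hs hs1
  constructor
  · nlinarith
  · nlinarith

lemma mem_interior {ν q : E d} (h1 : 0 < F1 ν q) (h2 : 0 < F2 ν q) : q ∈ interior (KK ν) := by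
  rw [mem_interior_iff_mem_nhds]
  filter_upwards [(continuous_F1 ν).continuousAt.eventually (lt_mem_nhds h1),
    (continuous_F2 ν).continuousAt.eventually (lt_mem_nhds h2)] with x h3 h4
  exact ⟨le_of_lt h3, le_of_lt h4⟩

lemma zero_mem (ν : E d) : (0 : E d) ∈ interior (KK ν) := by
  apply mem_interior <;> simp [F1, F2, perp, kk]

lemma norm_le_seven {ν q : E d} (hν : ‖ν‖ = 1) (hq : q ∈ KK ν) : ‖q‖ ≤ 7 := by
  obtain ⟨h1, h2⟩ := hq
  unfold F1 at h1
  unfold F2 at h2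
  have h3 := kk_ge (norm_nonneg (perp ν q))
  have h4 : q = perp ν q + ⟪ν, q⟫ • ν := by unfold perp; module
  have h5 := norm_add_le (perp ν q) (⟪ν, q⟫ • ν)
  rw [← h4, norm_smul, hν, mul_one, Real.norm_eq_abs] at h5
  have h6 := norm_nonneg (perp ν q)
  have h7 : |⟪ν, q⟫| ≤ 3 := by rw [abs_le]; constructor <;> linarith
  linarith

lemma isCompact_KK {ν : E d} (hν : ‖ν‖ = 1) : IsCompact (KK ν) := by
  apply (isCompact_closedBall (0 : E d) 7).of_isClosed_subset (isClosed_KK ν)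
  intro q hq
  rw [mem_closedBall_zero_iff]
  exact norm_le_seven hν hq

lemma one_point {ν : E d} (hν : ‖ν‖ = 1) {u : E d} (hu : u ≠ 0) :
    MeetsOnce (KK ν) u := by
  have hpre : IsPreconnected ((fun r : ℝ => r • u) '' Ici 0) :=
    isPreconnected_Ici.image _ (by fun_prop)
  have hne : ((fun r : ℝ => r • u) '' Ici 0 ∩ interior (KK ν)).Nonempty :=
    ⟨0, ⟨0, mem_Ici.2 le_rfl, by simp⟩, zero_mem ν⟩
  have hne2 : ((fun r : ℝ => r • u) '' Ici 0 ∩ (KK ν)ᶜ).Nonempty := by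
    refine ⟨(8 / ‖u‖) • u, ⟨8 / ‖u‖, mem_Ici.2 (by positivity), rfl⟩, fun h => ?_⟩
    have h1 := norm_le_seven hν h
    have hu0 : 0 < ‖u‖ := norm_pos_iff.2 hu
    rw [norm_smul, Real.norm_of_nonneg (by positivity), div_mul_cancel₀ _ hu0.ne'] at h1
    norm_num at h1
  obtain ⟨r, hr, hp⟩ : ∃ r : ℝ, 0 ≤ r ∧ r • u ∈ frontier (KK ν) := by
    by_contra hcon
    push Not at hcon
    obtain ⟨x, -, hx1, hx2⟩ := hpre (interior (KK ν)) (KK ν)ᶜ isOpen_interior
      (isClosed_KK ν).isOpen_compl (by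
        rintro _ ⟨r, hr, rfl⟩
        by_cases h1 : r • u ∈ KK ν
        · left
          by_contra h2
          exact hcon r hr ⟨subset_closure h1, h2⟩
        · right
          exact h1) hne hne2
    exact hx2 (interior_subset hx1)
  refine ⟨r • u, ⟨hp, r, hr, rfl⟩, ?_⟩
  have key : ∀ a b : ℝ, 0 ≤ a → a < b → b • u ∈ frontier (KK ν) → a • u ∈ frontier (KK ν) →
      False := by
    intro a b ha hab hb hfa
    have hb0 : 0 < b := ha.trans_lt hab
    have h1 := star (isClosed_KK ν |>.frontier_subset hb) (s := a / b) (by positivity)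
      ((div_lt_one hb0).2 hab)
    rw [smul_smul, div_mul_cancel₀ _ hb0.ne'] at h1
    exact hfa.2 (mem_interior h1.1 h1.2)
  rintro p' ⟨hp', r', hr', rfl⟩
  rcases lt_trichotomy r r' with h | h | h
  · exact (key r r' hr h hp' hp).elim
  · rw [h]
  · exact (key r' r hr' h hp hp').elim

lemma lipschitz_boundary {ν : E d} (hν : ‖ν‖ = 1) : HasLipschitzBoundary (KK ν) := by
  intro p hp
  have hpK : p ∈ KK ν := (isClosed_KK ν).frontier_subset hp
  have hp7 := norm_le_seven hν hpK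
  have hpi : ¬ (0 < F1 ν p ∧ 0 < F2 ν p) := fun h => hp.2 (mem_interior h.1 h.2)
  have hL1 : ∀ r : ℝ, r ≤ 1 → ∀ q ∈ Metric.ball p r, ∀ q' ∈ Metric.ball p r,
      |F1 ν q - F1 ν q'| ≤ 19 * ‖q - q'‖ := by
    intro r hr q hq q' hq'
    have h1 : ∀ q ∈ Metric.ball p r, ‖q‖ ≤ 8 := by
      intro q hq
      rw [mem_ball_iff_norm] at hq
      have := norm_le_norm_add_norm_sub' q p
      linarith
    have := F1_lip ν q q' hν (h1 q hq) (h1 q' hq')
    norm_num at this
    exact this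
  by_cases h1 : 0 < F1 ν p
  · -- upper surface
    have h2 : F2 ν p = 0 := le_antisymm (not_lt.1 fun h => hpi ⟨h1, h⟩) hpK.2
    obtain ⟨r, hr, hball⟩ := Metric.eventually_nhds_iff_ball.1
      ((continuous_F1 ν).continuousAt.eventually (lt_mem_nhds h1))
    refine lip_graph (e := -ν) (F := F2 ν) (r := r) (c := 1) (L := 2)
      (by rwa [norm_neg]) hr one_pos h2 ?_ ?_ ?_
    · apply LipschitzOnWith.of_dist_le_mul
      intro q _ q' _
      rw [Real.dist_eq, dist_eq_norm]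
      exact F2_lip ν q q' hν
    · intro q t _ _ _
      unfold F2 perp
      have e1 : ⟪ν, q + t • -ν⟫ = ⟪ν, q⟫ - t := by
        rw [inner_add_right, inner_smul_right, inner_neg_right, real_inner_self_eq_norm_sq, hν]
        ring
      rw [e1, show q + t • -ν - (⟪ν, q⟫ - t) • ν = q - ⟪ν, q⟫ • ν by module]
      linarith
    · intro q hq
      exact ⟨fun h => h.2, fun h => ⟨le_of_lt (hball q hq), h⟩⟩
  by_cases h2 : 0 < F2 ν p
  · -- lower surface
    have h3 : F1 ν p = 0 := le_antisymm (not_lt.1 h1) hpK.1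
    obtain ⟨r, hr, hball⟩ := Metric.eventually_nhds_iff_ball.1
      ((continuous_F2 ν).continuousAt.eventually (lt_mem_nhds h2))
    refine lip_graph (e := ν) (F := F1 ν) (r := min r 1) (c := 1) (L := 19)
      hν (lt_min hr one_pos) one_pos h3 ?_ ?_ ?_
    · apply LipschitzOnWith.of_dist_le_mul
      intro q hq q' hq'
      rw [Real.dist_eq, dist_eq_norm]
      exact hL1 _ (min_le_right _ _) q hq q' hq'
    · intro q t _ _ _
      unfold F1 perp
      have e1 : ⟪ν, q + t • ν⟫ = ⟪ν, q⟫ + t := by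
        rw [inner_add_right, inner_smul_right, real_inner_self_eq_norm_sq, hν]
        ring
      rw [e1, show q + t • ν - (⟪ν, q⟫ + t) • ν = q - ⟪ν, q⟫ • ν by module]
      linarith
    · intro q hq
      have hq' : q ∈ Metric.ball p r := Metric.ball_subset_ball (min_le_left _ _) hq
      exact ⟨fun h => h.1, fun h => ⟨h, le_of_lt (hball q hq')⟩⟩
  -- the rim
  have h3 : F1 ν p = 0 := le_antisymm (not_lt.1 h1) hpK.1
  have h4 : F2 ν p = 0 := le_antisymm (not_lt.1 h2) hpK.2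
  have ha : ‖perp ν p‖ = 2 := by
    unfold F1 kk at h3
    unfold F2 at h4
    have h5 := norm_nonneg (perp ν p)
    rcases abs_cases (‖perp ν p‖ - 1) with ⟨h6, h7⟩ | ⟨h6, h7⟩
    · rw [h6] at h3
      have : (‖perp ν p‖ - 2) * (‖perp ν p‖ + 1) = 0 := by nlinarith
      rcases mul_eq_zero.1 this with h8 | h8 <;> linarith
    · rw [h6] at h3
      nlinarith
  set ê : E d := (1 / 2 : ℝ) • perp ν p with hê
  have hê1 : ‖ê‖ = 1 := by rw [hê, norm_smul, ha]; norm_num
  have hê2 : ⟪ν, ê⟫ = 0 := by rw [hê, inner_smul_right, inner_perp ν p hν, mul_zero]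
  have hmv : ∀ (q : E d) (t : ℝ), q ∈ Metric.ball p (1 / 4) → q + t • -ê ∈ Metric.ball p (1 / 4) →
      0 ≤ t → ⟪ν, q + t • -ê⟫ = ⟪ν, q⟫ ∧ ‖perp ν (q + t • -ê)‖ ≤ ‖perp ν q‖ - t / 2 ∧
      7 / 4 ≤ ‖perp ν (q + t • -ê)‖ ∧ 7 / 4 ≤ ‖perp ν q‖ := by
    intro q t hq hq' ht
    have hin : ⟪ν, q + t • -ê⟫ = ⟪ν, q⟫ := by
      rw [inner_add_right, inner_smul_right, inner_neg_right, hê2]; ring
    have hnear : ∀ q ∈ Metric.ball p (1 / 4), 7 / 4 ≤ ‖perp ν q‖ ∧ ‖perp ν q‖ ≤ 9 / 4 := by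
      intro q hq
      rw [mem_ball_iff_norm] at hq
      have := abs_le.1 (norm_perp_sub ν q p hν)
      rw [ha] at this
      constructor <;> linarith [this.1, this.2]
    have ht2 : t ≤ 1 / 2 := by
      rw [mem_ball_iff_norm] at hq hq'
      have h5 : t • ê = (q - p) - (q + t • -ê - p) := by module
      have h6 := norm_sub_le (q - p) (q + t • -ê - p)
      rw [← h5, norm_smul, hê1, mul_one, Real.norm_of_nonneg ht] at h6
      linarith
    have hA : perp ν (q + t • -ê) = perp ν q - t • ê := by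
      unfold perp
      rw [← neg_inj] at hin
      have hin' : ⟪ν, q + t • -ê⟫ = ⟪ν, q⟫ := neg_inj.1 hin
      rw [hin']
      module
    have hin2 : 7 / 4 ≤ ⟪perp ν q, ê⟫ := by
      have h5 : perp ν q = (2 : ℝ) • ê + perp ν (q - p) := by
        rw [← perp_sub, hê, smul_smul]
        norm_num
      have h6 : ⟪perp ν q, ê⟫ = 2 + ⟪perp ν (q - p), ê⟫ := by
        rw [h5, inner_add_left, real_inner_smul_left, real_inner_self_eq_norm_sq, hê1]
        ring
      have h7 := abs_real_inner_le_norm (perp ν (q - p)) ê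
      rw [hê1, mul_one] at h7
      have h8 := norm_perp_le ν (q - p) hν
      rw [mem_ball_iff_norm] at hq
      have h9 := (abs_le.1 h7).1
      linarith
    have h5 := (hnear q hq)
    refine ⟨hin, ?_, (hnear _ hq').1, h5.1⟩
    rw [hA]
    apply le_of_sq_le_sq _ (by linarith)
    rw [norm_sub_sq_real, inner_smul_right, norm_smul, hê1, mul_one, Real.norm_of_nonneg ht]
    nlinarith
  refine lip_graph (e := -ê) (F := fun q => min (F1 ν q) (F2 ν q)) (r := 1 / 4)
    (c := 1 / 2) (L := 19) (by rwa [norm_neg]) (by norm_num) (by norm_num)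
    (by simp [h3, h4]) ?_ ?_ ?_
  · apply LipschitzOnWith.of_dist_le_mul
    intro q hq q' hq'
    rw [Real.dist_eq, dist_eq_norm]
    have h5 := hL1 _ (by norm_num) q hq q' hq'
    have h6 := F2_lip ν q q' hν
    refine (abs_min_sub_min_le_max _ _ _ _).trans (max_le h5 (h6.trans ?_))
    have := norm_nonneg (q - q')
    have : ((19 : ℝ≥0) : ℝ) = 19 := by norm_num
    rw [this]
    linarith
  · intro q t hq hq' ht
    obtain ⟨m1, m2, m3, m4⟩ := hmv q t hq hq' ht
    have g2 : F2 ν q + 1 / 2 * t ≤ F2 ν (q + t • -ê) := by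
      unfold F2
      rw [m1]
      linarith
    have g1 : F1 ν q + 1 / 2 * t ≤ F1 ν (q + t • -ê) := by
      unfold F1 kk
      rw [m1, abs_of_nonneg (by linarith), abs_of_nonneg (by linarith)]
      nlinarith
    exact le_min ((add_le_add (min_le_left _ _) le_rfl).trans g1)
      ((add_le_add (min_le_right _ _) le_rfl).trans g2)
  · intro q _
    exact le_min_iff.symm

end shape

/-- **Answer to Q1, in the negative for every `d ≥ 2`.**  There is a compact set `K` with Lipschitz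
boundary, containing a neighbourhood of `0`, whose boundary meets every ray from `0` in exactly one
point, such that `K ≠ 𝔹` for every norm (in fact seminorm) `μ`, every `α < 1` and every strictly
positive Lipschitz `f₀` on the sphere. -/
theorem result (d : ℕ) (hd : 2 ≤ d) : ∃ K : Set (E d), Admissible K ∧
    ∀ (μ : Seminorm ℝ (E d)) (α : ℝ), α < 1 → ∀ f₀ : E d → ℝ, Angular f₀ →
      K ≠ ballD μ (weight α f₀) := by
  set ν : E d := EuclideanSpace.single ⟨1, by omega⟩ 1 with hν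
  set e : E d := EuclideanSpace.single ⟨0, by omega⟩ 1 with he
  have hν1 : ‖ν‖ = 1 := by simp [hν]
  have he1 : ‖e‖ = 1 := by simp [he]
  have hev : ⟪e, ν⟫ = 0 := by
    rw [he, hν, EuclideanSpace.inner_single_left]
    simp
  have hve : ⟪ν, e⟫ = 0 := by rw [real_inner_comm, hev]
  refine ⟨KK ν, ⟨isCompact_KK hν1, lipschitz_boundary hν1,
    mem_interior_iff_mem_nhds.1 (zero_mem ν), fun u hu => one_point hν1 hu⟩, ?_⟩
  rintro μ α hα f₀ ⟨⟨L, hL⟩, hpos⟩ hK
  apply no_tangent (μ := μ) e ν he1 hν1 hev hα hL.continuousOn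
    (fun u hu => hpos u (by simpa using hu))
  · intro h h0 h1
    rw [← hK]
    rintro ⟨h2, -⟩
    have e1 : ⟪ν, (1 + h) • e⟫ = 0 := by rw [inner_smul_right, hve, mul_zero]
    unfold F1 perp kk at h2
    rw [e1, zero_smul, sub_zero, norm_smul, he1, mul_one, Real.norm_of_nonneg (by linarith),
      show 1 + h - 1 = h by ring, abs_of_pos h0] at h2
    nlinarith
  · intro h h0 h1
    rw [← hK]
    have e1 : ⟪ν, (1 + h) • e + (h ^ 2) • ν⟫ = h ^ 2 := by
      rw [inner_add_right, inner_smul_right, inner_smul_right, hve, real_inner_self_eq_norm_sq,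
        hν1]
      ring
    have e2 : ‖perp ν ((1 + h) • e + (h ^ 2) • ν)‖ = 1 + h := by
      unfold perp
      rw [e1, show (1 + h) • e + (h ^ 2) • ν - (h ^ 2) • ν = (1 + h) • e by module, norm_smul, he1,
        mul_one, Real.norm_of_nonneg (by linarith)]
    constructor
    · unfold F1 kk
      rw [e1, e2, show 1 + h - 1 = h by ring, abs_of_pos h0]
      nlinarith
    · unfold F2
      rw [e1, e2]
      nlinarith

end Pool.Agent.Results.MP_41ff67_pr.TangentRay
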